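import Mathlib.FieldTheory.IsAlgClosed.AlgebraicClosure
import Mathlib.Tactic

set_option autoImplicit false

/-!
# Solving `s ^ D = 1 + s ^ (3 e)` in the multiplicative group of an algebraically closed field
of characteristic three, and the points `χ` with `χ₂ = (χ^b₂)³`, `χ₃ = (χ^b₃)³`, `χ₁ = 1 + (χ^b₁)³`.
-/

namespace Pool.Agent.W861.VC

open Polynomial

theorem trinomial_root {K : Type*} [Field K] [IsAlgClosed K] (α β γ : K) (i j : ℕ)
    (hα : α ≠ 0) (hβ : β ≠ 0) (hγ : γ ≠ 0) (hi : 0 < i) (hj : 0 < j) (hij : i ≠ j) :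
    ∃ s : K, s ≠ 0 ∧ α * s ^ i + β * s ^ j + γ = 0 := by
  set p : K[X] := C α * X ^ i + C β * X ^ j + C γ with hp
  have hc : p.coeff i = α := by
    rw [hp]
    simp [coeff_C, hi.ne', hij, coeff_X_pow]
  have hne : p.degree ≠ 0 := by
    intro h0
    have h1 : p.coeff i = 0 := coeff_eq_zero_of_degree_lt (by rw [h0]; exact_mod_cast hi)
    exact hα (hc ▸ h1)
  obtain ⟨s, hs⟩ := IsAlgClosed.exists_root p hne
  have hs' : α * s ^ i + β * s ^ j + γ = 0 := by
    have := hs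
    rw [IsRoot.def, hp] at this
    simpa using this
  refine ⟨s, ?_, hs'⟩
  rintro rfl
  rw [zero_pow hi.ne', zero_pow hj.ne'] at hs'
  exact hγ (by simpa using hs')

theorem exists_zpow_eq {K : Type*} [Field K] [IsAlgClosed K] (h2 : (2 : K) ≠ 0)
    (D E : ℤ) (hD : D ≠ 0) (hDE : D ≠ E) : ∃ s : Kˣ, ((s ^ D : Kˣ) : K) = 1 + ((s ^ E : Kˣ) : K) := by
  -- `s ^ D - s ^ E - 1 = 0`
  have one_ne : (1 : K) ≠ 0 := one_ne_zero
  have neg_ne : (-1 : K) ≠ 0 := neg_ne_zero.2 one_ne_zero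
  have key : ∀ (m : ℤ), (∃ s : K, s ≠ 0 ∧ s ^ (D + m) - s ^ (E + m) - s ^ m = 0) →
      ∃ s : Kˣ, ((s ^ D : Kˣ) : K) = 1 + ((s ^ E : Kˣ) : K) := by
    rintro m ⟨s, hs, h⟩
    refine ⟨Units.mk0 s hs, ?_⟩
    rw [zpow_add₀ hs, zpow_add₀ hs] at h
    have h3 : s ^ m ≠ 0 := zpow_ne_zero _ hs
    have h4 : (s ^ D - s ^ E - 1) * s ^ m = 0 := by linear_combination h
    rcases mul_eq_zero.1 h4 with h5 | h5
    · simp only [Units.val_zpow_eq_zpow_val, Units.val_mk0]
      linear_combination h5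
    · exact absurd h5 h3
  by_cases hE : E = 0
  · subst hE
    -- s ^ D = 2
    have : ∃ s : K, s ≠ 0 ∧ s ^ D = 2 := by
      rcases lt_or_gt_of_ne hD with hneg | hpos
      · obtain ⟨n, hn⟩ := Int.exists_eq_neg_ofNat hneg.le
        have hn0 : 0 < n := by omega
        obtain ⟨z, hz⟩ := IsAlgClosed.exists_pow_nat_eq (2⁻¹ : K) hn0
        have hz0 : z ≠ 0 := by
          rintro rfl
          rw [zero_pow hn0.ne'] at hz
          exact inv_ne_zero h2 hz.symm
        refine ⟨z, hz0, ?_⟩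
        rw [hn, zpow_neg, zpow_natCast, hz, inv_inv]
      · obtain ⟨n, hn⟩ := Int.eq_ofNat_of_zero_le hpos.le
        have hn0 : 0 < n := by omega
        obtain ⟨z, hz⟩ := IsAlgClosed.exists_pow_nat_eq (2 : K) hn0
        have hz0 : z ≠ 0 := by
          rintro rfl
          rw [zero_pow hn0.ne'] at hz
          exact h2 hz.symm
        refine ⟨z, hz0, ?_⟩
        rw [hn, zpow_natCast, hz]
    obtain ⟨s, hs, h⟩ := this
    refine key 0 ⟨s, hs, ?_⟩
    simp only [add_zero, zpow_zero, h]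
    norm_num
  · rcases lt_trichotomy 0 (min D E) with hmin | hmin | hmin
    · -- both positive
      have hD0 : 0 < D := lt_of_lt_of_le hmin (min_le_left _ _)
      have hE0 : 0 < E := lt_of_lt_of_le hmin (min_le_right _ _)
      obtain ⟨d, hd⟩ := Int.eq_ofNat_of_zero_le hD0.le
      obtain ⟨e, he⟩ := Int.eq_ofNat_of_zero_le hE0.le
      obtain ⟨s, hs, h⟩ := trinomial_root (1 : K) (-1) (-1) d e one_ne neg_ne neg_ne
        (by omega) (by omega) (by omega)
      refine key 0 ⟨s, hs, ?_⟩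
      rw [hd, he]
      simp only [add_zero, zpow_zero, zpow_natCast]
      linear_combination h
    · exfalso
      rcases min_choice D E with h | h
      · exact hD (by omega)
      · exact hE (by omega)
    · rcases lt_or_gt_of_ne hDE with h | h
      · -- D < E, D < 0
        have hD0 : D < 0 := by
          rcases min_choice D E with h' | h' <;> omega
        obtain ⟨i, hi⟩ := Int.eq_ofNat_of_zero_le (show 0 ≤ E - D by omega)
        obtain ⟨j, hj⟩ := Int.eq_ofNat_of_zero_le (show 0 ≤ - D by omega)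
        obtain ⟨s, hs, h⟩ := trinomial_root (-1 : K) (-1) 1 i j neg_ne neg_ne one_ne
          (by omega) (by omega) (by omega)
        refine key (-D) ⟨s, hs, ?_⟩
        rw [show D + -D = 0 by ring, show E + -D = (i : ℤ) by omega, hj, zpow_zero]
        simp only [zpow_natCast]
        linear_combination h
      · -- E < D, E < 0
        have hE0 : E < 0 := by
          rcases min_choice D E with h' | h' <;> omega
        obtain ⟨i, hi⟩ := Int.eq_ofNat_of_zero_le (show 0 ≤ D - E by omega)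
        obtain ⟨j, hj⟩ := Int.eq_ofNat_of_zero_le (show 0 ≤ - E by omega)
        obtain ⟨s, hs, h⟩ := trinomial_root (1 : K) (-1) (-1) i j one_ne neg_ne neg_ne
          (by omega) (by omega) (by omega)
        refine key (-E) ⟨s, hs, ?_⟩
        rw [show E + -E = 0 by ring, show D + -E = (i : ℤ) by omega, hj, zpow_zero]
        simp only [zpow_natCast]
        linear_combination h

/-- The monomial `χ₀^{b₀} χ₁^{b₁} χ₂^{b₂}`. -/
def mono {A : Type*} [CommGroup A] (χ : Fin 3 → A) (b : Fin 3 → ℤ) : A :=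
  χ 0 ^ b 0 * χ 1 ^ b 1 * χ 2 ^ b 2

theorem exists_point {K : Type*} [Field K] [IsAlgClosed K] [CharP K 3] (b₁ b₂ b₃ : Fin 3 → ℤ) :
    ∃ χ : Fin 3 → Kˣ, χ 1 = mono χ b₂ ^ 3 ∧ χ 2 = mono χ b₃ ^ 3 ∧
      (χ 0 : K) = 1 + ((mono χ b₁ ^ 3 : Kˣ) : K) := by
  have h3 : (3 : K) = 0 := by
    have := CharP.cast_eq_zero K 3
    exact_mod_cast this
  have h2 : (2 : K) ≠ 0 := by
    intro h
    have : (1 : K) = 0 := by linear_combination h3 - h
    exact one_ne_zero this
  set D : ℤ := (1 - 3 * b₂ 1) * (1 - 3 * b₃ 2) - 9 * b₂ 2 * b₃ 1 with hD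
  set p : ℤ := 3 * b₂ 0 * (1 - 3 * b₃ 2) + 9 * b₂ 2 * b₃ 0 with hp
  set q : ℤ := 3 * b₃ 0 * (1 - 3 * b₂ 1) + 9 * b₃ 1 * b₂ 0 with hq
  set e : ℤ := b₁ 0 * D + b₁ 1 * p + b₁ 2 * q with he
  have hDm : D = 1 + 3 * (- b₂ 1 - b₃ 2 + 3 * b₂ 1 * b₃ 2 - 3 * b₂ 2 * b₃ 1) := by
    rw [hD]; ring
  obtain ⟨s, hs⟩ := exists_zpow_eq (K := K) h2 D (3 * e) (by omega) (by omega)
  refine ⟨![s ^ D, s ^ p, s ^ q], ?_, ?_, ?_⟩
  · simp only [mono, Matrix.cons_val_zero, Matrix.cons_val_one, Matrix.cons_val]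
    simp only [← zpow_mul, ← zpow_add, ← zpow_natCast]
    congr 1
    rw [hD, hp, hq]; push_cast; ring
  · simp only [mono, Matrix.cons_val_zero, Matrix.cons_val_one, Matrix.cons_val]
    simp only [← zpow_mul, ← zpow_add, ← zpow_natCast]
    congr 1
    rw [hD, hp, hq]; push_cast; ring
  · simp only [mono, Matrix.cons_val_zero, Matrix.cons_val_one, Matrix.cons_val]
    simp only [← zpow_mul, ← zpow_add, ← zpow_natCast]
    rw [hs]
    have h9 : 3 * e = (D * b₁ 0 + p * b₁ 1 + q * b₁ 2) * ((3 : ℕ) : ℤ) := by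
      rw [he]; push_cast; ring
    rw [h9]

end Pool.Agent.W861.VC
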