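import Pool.Agent.W861.VC.Defs
import Pool.Agent.W861.VC.Root

set_option autoImplicit false

/-!
# `H` is not a retract of `G`
-/

namespace Pool.Agent.W861.VC

/-- The group of affine maps `y ↦ α y + p` of a field. -/
@[ext] structure Aff (K : Type) [Field K] : Type where
  p : K
  a : Kˣ

namespace Aff

variable {K : Type} [Field K]

instance : Mul (Aff K) := ⟨fun x y => ⟨x.p + x.a * y.p, x.a * y.a⟩⟩
instance : One (Aff K) := ⟨⟨0, 1⟩⟩
instance : Inv (Aff K) := ⟨fun x => ⟨-(((x.a)⁻¹ : Kˣ) : K) * x.p, x.a⁻¹⟩⟩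

@[simp] theorem mul_p (x y : Aff K) : (x * y).p = x.p + x.a * y.p := rfl
@[simp] theorem mul_a (x y : Aff K) : (x * y).a = x.a * y.a := rfl
@[simp] theorem one_p : (1 : Aff K).p = 0 := rfl
@[simp] theorem one_a : (1 : Aff K).a = 1 := rfl
@[simp] theorem inv_p (x : Aff K) : (x⁻¹).p = -(((x.a)⁻¹ : Kˣ) : K) * x.p := rfl
@[simp] theorem inv_a (x : Aff K) : (x⁻¹).a = (x.a)⁻¹ := rfl

instance : Group (Aff K) where
  mul_assoc x y z := by
    ext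
    · simp; ring
    · simp [mul_assoc]
  one_mul x := by ext <;> simp
  mul_one x := by ext <;> simp
  inv_mul_cancel x := by
    ext
    · simp
    · simp

/-- The linear part. -/
def lin : Aff K →* Kˣ where
  toFun x := x.a
  map_one' := rfl
  map_mul' _ _ := rfl

@[simp] theorem lin_apply (x : Aff K) : lin x = x.a := rfl

theorem metab : derivedSeries (Aff K) 2 = ⊥ := by
  refine derivedSeries_two_eq_bot lin ?_
  intro x y hx hy
  rw [lin_apply] at hx hy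
  ext
  · simp [hx, hy, add_comm]
  · simp [hx, hy]

theorem cm_p (x y : Aff K) : (cm x y).p = (1 - (y.a : K)) * x.p - (1 - (x.a : K)) * y.p := by
  have hx : (x.a : K) ≠ 0 := x.a.ne_zero
  have hy : (y.a : K) ≠ 0 := y.a.ne_zero
  simp only [cm, mul_p, mul_a, inv_p, inv_a, Units.val_mul, Units.val_inv_eq_inv_val]
  field_simp
  ring

@[simp] theorem cm_a (x y : Aff K) : (cm x y).a = 1 := by
  simp only [cm, mul_a, inv_a]
  exact cm_comm x.a y.a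

theorem pow_a (x : Aff K) (n : ℕ) : (x ^ n).a = x.a ^ n := by
  have := map_pow (lin (K := K)) x n
  simpa using this

/-- conjugation of an element with trivial linear part. -/
theorem conj_p (x c : Aff K) (hc : c.a = 1) : (x * c * x⁻¹).p = x.a * c.p := by
  simp [hc]

theorem conj_a (x c : Aff K) (hc : c.a = 1) : (x * c * x⁻¹).a = 1 := by
  simp [hc]

theorem inv_p' (c : Aff K) (hc : c.a = 1) : (c⁻¹).p = - c.p := by
  simp [hc]

theorem mul_p' (c d : Aff K) (hc : c.a = 1) : (c * d).p = c.p + d.p := by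
  simp [hc]

theorem pow_p' (c : Aff K) (hc : c.a = 1) (n : ℕ) : (c ^ n).p = n * c.p := by
  induction n with
  | zero => simp
  | succ n ih =>
    rw [pow_succ, mul_p' _ _ (by rw [pow_a, hc, one_pow]), ih]
    push_cast; ring

theorem uw_a (X : Fin 7 → Aff K) : (uw X).a = 1 := by
  have := map_uw (lin (K := K)) X
  rw [uw_comm] at this
  exact this

theorem uw_p (X : Fin 7 → Aff K) (h0 : (X 0).p = 0) (h1 : (X 1).p = 0) :
    (uw X).p = - (1 - ((X 0).a : K)) * (3 * (X 3).p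
        + (((X 1).a : K) - ((X 4).a : K) ^ 3) * (X 4).p
        + (((X 2).a : K) - ((X 5).a : K) ^ 3) * (X 5).p)
      + (((X 3).a : K) ^ 3)⁻¹ * (1 - ((X 0).a : K)) * (X 2).p := by
  have c1 : ∀ x y : Aff K, ((cm x y) ^ 3).a = 1 := fun x y => by rw [pow_a, cm_a, one_pow]
  have c2 : ∀ x c : Aff K, c.a = 1 → (x * c * x⁻¹).a = 1 := conj_a
  have c3 : ∀ c : Aff K, c.a = 1 → (c⁻¹).a = 1 := fun c hc => by simp [hc]
  have c4 : ∀ c d : Aff K, c.a = 1 → d.a = 1 → (c * d).a = 1 := fun c d hc hd => by simp [hc, hd]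
  have e1 : (X 3 ^ 3)⁻¹ * cm (X 0) (X 2) * X 3 ^ 3
      = (X 3 ^ 3)⁻¹ * cm (X 0) (X 2) * ((X 3 ^ 3)⁻¹)⁻¹ := by rw [inv_inv]
  have m1 := cm_a (X 0) (X 3)
  unfold uw
  rw [e1]
  have a1 := c1 (X 0) (X 3)
  have a2 := c2 (X 1) _ (cm_a (X 0) (X 4))
  have a3 := c3 _ (c2 (X 4 ^ 3) _ (cm_a (X 0) (X 4)))
  have a4 := c2 (X 2) _ (cm_a (X 0) (X 5))
  have a5 := c3 _ (c2 (X 5 ^ 3) _ (cm_a (X 0) (X 5)))
  have a6 := c3 _ (c2 ((X 3 ^ 3)⁻¹) _ (cm_a (X 0) (X 2)))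
  have a12 := c4 _ _ a1 a2
  have a123 := c4 _ _ a12 a3
  have a1234 := c4 _ _ a123 a4
  have a12345 := c4 _ _ a1234 a5
  have a123456 := c4 _ _ a12345 a6
  rw [mul_p' _ _ a123456, mul_p' _ _ a12345, mul_p' _ _ a1234, mul_p' _ _ a123, mul_p' _ _ a12,
    mul_p' _ _ a1, pow_p' _ m1, conj_p _ _ (cm_a _ _), inv_p' _ (c2 _ _ (cm_a _ _)),
    conj_p _ _ (cm_a _ _), conj_p _ _ (cm_a _ _), inv_p' _ (c2 _ _ (cm_a _ _)),
    conj_p _ _ (cm_a _ _), inv_p' _ (c2 _ _ (cm_a _ _)), conj_p _ _ (cm_a _ _),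
    conj_p _ _ (cm_a _ _)]
  simp only [cm_p, h0, h1, pow_a, inv_a, Units.val_inv_eq_inv_val, Units.val_pow_eq_pow_val]
  push_cast
  ring

end Aff

theorem mono_add {C : Type} [CommGroup C] (χ : Fin 3 → C) (b c : Fin 3 → ℤ) :
    mono χ (b + c) = mono χ b * mono χ c := by
  simp only [mono, Pi.add_apply, zpow_add]
  rw [mul_mul_mul_comm (χ 0 ^ b 0), mul_mul_mul_comm (χ 0 ^ b 0 * χ 1 ^ b 1)]

theorem mono_neg {C : Type} [CommGroup C] (χ : Fin 3 → C) (b : Fin 3 → ℤ) :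
    mono χ (-b) = (mono χ b)⁻¹ := by
  simp only [mono, Pi.neg_apply, zpow_neg, mul_inv]

theorem hom_mono {C : Type} [CommGroup C] {h : G7} (hh : h ∈ H7) :
    ∃ b : Fin 3 → ℤ, ∀ ψ : G7 →* C, ψ h = mono (fun i => ψ (hg i)) b := by
  unfold H7 at hh
  induction hh using Subgroup.closure_induction with
  | mem x hx =>
    obtain ⟨i, rfl⟩ := hx
    refine ⟨Pi.single i 1, fun ψ => ?_⟩
    fin_cases i <;> simp [mono]
  | one => exact ⟨0, fun ψ => by simp [mono]⟩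
  | mul x y _ _ hx hy =>
    obtain ⟨b, hb⟩ := hx
    obtain ⟨c, hc⟩ := hy
    refine ⟨b + c, fun ψ => ?_⟩
    rw [map_mul, hb, hc, mono_add]
  | inv x _ hx =>
    obtain ⟨b, hb⟩ := hx
    refine ⟨-b, fun ψ => ?_⟩
    rw [map_inv, hb, mono_neg]

theorem not_retract : ¬ ∃ f : G7 →* G7, (∀ g, f g ∈ H7) ∧ ∀ h ∈ H7, f h = h := by
  rintro ⟨f, hf, hfix⟩
  let K := AlgebraicClosure (ZMod 3)
  have : CharP K 3 := inferInstance
  obtain ⟨b₁, hb₁⟩ := hom_mono (C := Kˣ) (hf (gen 3))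
  obtain ⟨b₂, hb₂⟩ := hom_mono (C := Kˣ) (hf (gen 4))
  obtain ⟨b₃, hb₃⟩ := hom_mono (C := Kˣ) (hf (gen 5))
  obtain ⟨χ, h1, h2, h0⟩ := exists_point (K := K) b₁ b₂ b₃
  have h3 : (3 : K) = 0 := by
    have := CharP.cast_eq_zero K 3
    exact_mod_cast this
  -- choice of `ζ`
  obtain ⟨ζ, hζ⟩ : ∃ ζ : Kˣ, 1 + ((ζ : K) ^ 3)⁻¹ * (1 - (χ 0 : K)) ≠ 0 := by
    by_cases h : (2 : K) - (χ 0 : K) = 0
    · refine ⟨-1, ?_⟩
      have : 1 + ((((-1 : Kˣ) : K)) ^ 3)⁻¹ * (1 - (χ 0 : K)) = (χ 0 : K) := by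
        rw [Units.val_neg, Units.val_one]
        norm_num
        ring
      rw [this]
      exact (χ 0).ne_zero
    · refine ⟨1, ?_⟩
      intro h'
      apply h
      rw [Units.val_one, one_pow, inv_one, one_mul] at h'
      linear_combination h'
  let X : Fin 7 → Aff K := ![⟨0, χ 0⟩, ⟨0, χ 1⟩, ⟨1, χ 2⟩, ⟨0, ζ⟩, ⟨0, 1⟩, ⟨0, 1⟩, ⟨0, 1⟩]
  let Ψ : G7 →* Aff K := liftG Aff.metab X
  have hΨ : ∀ i, Ψ (gen i) = X i := fun i => liftG_gen _ _ i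
  -- values on the generators of `H`
  have v0 : Ψ (hg 0) = ⟨0, χ 0⟩ := by
    show Ψ (gen 0) = _
    rw [hΨ]; rfl
  have v1 : Ψ (hg 1) = ⟨0, χ 1⟩ := by
    show Ψ (gen 1) = _
    rw [hΨ]; rfl
  have v2a : (Ψ (hg 2)).a = χ 2 := by
    show (Ψ (uw gen * gen 2)).a = _
    rw [map_mul, map_uw, Aff.mul_a, Aff.uw_a, one_mul, hΨ]; rfl
  have v2p : (Ψ (hg 2)).p = 1 + ((ζ : K) ^ 3)⁻¹ * (1 - (χ 0 : K)) := by
    show (Ψ (uw gen * gen 2)).p = _
    rw [map_mul, map_uw, Aff.mul_p' _ _ (Aff.uw_a _)]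
    simp only [hΨ]
    rw [Aff.uw_p _ rfl rfl]
    simp [X]
    ring
  -- the composition with the retraction
  have m0 : hg 0 ∈ H7 := Subgroup.subset_closure ⟨0, rfl⟩
  have m1 : hg 1 ∈ H7 := Subgroup.subset_closure ⟨1, rfl⟩
  have m2 : hg 2 ∈ H7 := Subgroup.subset_closure ⟨2, rfl⟩
  have hmono : ∀ b : Fin 3 → ℤ, mono (fun i => (Aff.lin.comp Ψ) (hg i)) b = mono χ b := by
    intro b
    have : (fun i => (Aff.lin.comp Ψ) (hg i)) = χ := by
      funext i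
      fin_cases i
      · simp [v0]
      · simp [v1]
      · simp [v2a]
    rw [this]
  let Y : Fin 7 → Aff K := fun i => Ψ (f (gen i))
  have y0 : Y 0 = ⟨0, χ 0⟩ := by
    show Ψ (f (gen 0)) = _
    rw [← v0]
    congr 1
    exact hfix _ m0
  have y1 : Y 1 = ⟨0, χ 1⟩ := by
    show Ψ (f (gen 1)) = _
    rw [← v1]
    congr 1
    exact hfix _ m1
  have y3 : (Y 3).a = mono χ b₁ := by rw [← hmono, ← hb₁]; rfl
  have y4 : (Y 4).a = mono χ b₂ := by rw [← hmono, ← hb₂]; rfl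
  have y5 : (Y 5).a = mono χ b₃ := by rw [← hmono, ← hb₃]; rfl
  have e2 : Ψ (hg 2) = uw Y * Y 2 := by
    have := hfix _ m2
    rw [← this]
    show Ψ (f (uw gen * gen 2)) = _
    rw [map_mul, map_mul, map_uw, map_uw]
  have y2 : (Y 2).a = χ 2 := by
    rw [← v2a, e2, Aff.mul_a, Aff.uw_a, one_mul]
  apply hζ
  rw [← v2p, e2, Aff.mul_p' _ _ (Aff.uw_a _), Aff.uw_p _ (by rw [y0]) (by rw [y1]), y3, y4, y5, y2,
    y0, y1]
  simp only
  rw [h1, h2, h3]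
  have h0' : ((mono χ b₁ : Kˣ) : K) ^ 3 = (χ 0 : K) - 1 := by
    rw [h0]; push_cast; ring
  have hne : ((mono χ b₁ : Kˣ) : K) ^ 3 ≠ 0 := pow_ne_zero _ (Units.ne_zero _)
  have h5 : (((mono χ b₁ : Kˣ) : K) ^ 3)⁻¹ * (1 - (χ 0 : K)) = -1 := by
    rw [show (1 : K) - (χ 0 : K) = - ((mono χ b₁ : Kˣ) : K) ^ 3 by rw [h0']; ring,
      mul_neg, inv_mul_cancel₀ hne]
  rw [h5]
  push_cast
  ring

end Pool.Agent.W861.VC
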