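import Pool.Agent.W861.VC.MkData
import Pool.Agent.W861.VC.NotRetract

set_option autoImplicit false

/-!
# `H` is verbally closed in `G`
-/

namespace Pool.Agent.W861.VC

theorem hg_mem (i : Fin 3) : hg i ∈ H7 := Subgroup.subset_closure ⟨i, rfl⟩

/-- Every element of `H` is fixed by a homomorphism `G → H`. -/
theorem exists_hom (h : G7) (hh : h ∈ H7) : ∃ θ : G7 →* H7, (θ h : G7) = h := by
  obtain ⟨W, hW⟩ : ∃ W : FreeGroup (Fin 3), FreeGroup.lift hg W = h := by
    have : h ∈ (FreeGroup.lift hg).range := by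
      rw [FreeGroup.range_lift_eq_closure]; exact hh
    exact this
  set a : Fin 3 → H7 := fun i => ⟨hg i, hg_mem i⟩ with ha
  obtain ⟨X, hX⟩ := metab_main (metab_subgroup metab_G7 H7) a W
  refine ⟨liftG (metab_subgroup metab_G7 H7) X, ?_⟩
  set θ := liftG (metab_subgroup metab_G7 H7) X with hθ
  have h1 : θ h = FreeGroup.lift ![X 0, X 1, uw X * X 2] W := by
    rw [← hW]
    have : (θ.comp (FreeGroup.lift hg)) = FreeGroup.lift ![X 0, X 1, uw X * X 2] := by
      ext i
      fin_cases i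
      · simp [hg, hθ]
      · simp [hg, hθ]
      · simp [hg, hθ, map_uw]
    rw [← this]; rfl
  have h2 : ((FreeGroup.lift a W : H7) : G7) = h := by
    rw [← hW]
    have : (H7.subtype.comp (FreeGroup.lift a)) = FreeGroup.lift hg := by
      ext i
      simp [ha]
    rw [← this]; rfl
  rw [h1, hX, h2]

/-- `H` is verbally closed. -/
theorem verbally_closed (n : ℕ) (w : FreeGroup (Fin n)) (h : G7) (hh : h ∈ H7)
    (hx : ∃ x : Fin n → G7, FreeGroup.lift x w = h) :
    ∃ x : Fin n → G7, (∀ i, x i ∈ H7) ∧ FreeGroup.lift x w = h := by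
  obtain ⟨x, hx⟩ := hx
  obtain ⟨θ, hθ⟩ := exists_hom h hh
  refine ⟨fun i => (θ (x i) : G7), fun i => (θ (x i)).2, ?_⟩
  have : ((H7.subtype.comp θ).comp (FreeGroup.lift x)) = FreeGroup.lift (fun i => (θ (x i) : G7)) := by
    ext i
    simp
  rw [← this]
  show ((θ (FreeGroup.lift x w) : H7) : G7) = h
  rw [hx, hθ]

end Pool.Agent.W861.VC
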