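import Mathlib.RingTheory.AdjoinRoot
import Mathlib.Algebra.MvPolynomial.Funext
import Mathlib.Algebra.MvPolynomial.Equiv
import Mathlib.Algebra.CharP.Frobenius
import Mathlib.Tactic

set_option autoImplicit false

/-!
# The commutative algebra lemma
-/

namespace Pool.Agent.W861.VC

open Polynomial in
/-- For a nonzero polynomial over `F₃` some power of the Frobenius map fixes all its roots. -/
theorem exists_frob (r : (ZMod 3)[X]) (hr : r ≠ 0) :
    ∃ n : ℕ, 1 ≤ n ∧ ∀ (K : Type) [Field K] [Algebra (ZMod 3) K] (ξ : K),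
      aeval ξ r = 0 → ξ ^ 3 ^ n = ξ := by
  have : Fact (Nat.Prime 3) := ⟨Nat.prime_three⟩
  have : Module.Finite (ZMod 3) (AdjoinRoot r) := (AdjoinRoot.powerBasis hr).finite
  have : Finite (AdjoinRoot r) := Module.finite_of_finite (ZMod 3)
  obtain ⟨i, j, hij, h⟩ := Finite.exists_ne_map_eq_of_infinite
    (fun i : ℕ => (AdjoinRoot.root r) ^ 3 ^ i)
  wlog hlt : i < j generalizing i j
  · exact this j i hij.symm h.symm (lt_of_le_of_ne (not_lt.1 hlt) hij.symm)
  refine ⟨j - i, by omega, ?_⟩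
  intro K _ _ ξ hξ
  have : CharP K 3 := charP_of_injective_algebraMap (algebraMap (ZMod 3) K).injective 3
  have h1 : ξ ^ 3 ^ i = ξ ^ 3 ^ j := by
    have hξ' : eval₂ (algebraMap (ZMod 3) K) ξ r = 0 := by rwa [← aeval_def]
    have h2 := congrArg (AdjoinRoot.lift (algebraMap (ZMod 3) K) ξ hξ') h
    rw [map_pow, map_pow, AdjoinRoot.lift_root] at h2
    exact h2
  have h3 : (ξ ^ 3 ^ (j - i) - ξ) ^ 3 ^ i = 0 := by
    rw [sub_pow_char_pow, ← pow_mul, ← pow_add, Nat.sub_add_cancel hlt.le, ← h1, sub_self]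
  exact sub_eq_zero.1 (pow_eq_zero_iff (pow_ne_zero _ (by norm_num)) |>.1 h3)

open MvPolynomial in
theorem eval_option (R : MvPolynomial (Fin 3) (ZMod 3)) (x : Fin 2 → Polynomial (ZMod 3)) :
    eval x (optionEquivRight (ZMod 3) (Fin 2) (rename (finSuccEquiv 2) R))
        = aeval ![(Polynomial.X : Polynomial (ZMod 3)), x 0, x 1] R := by
  induction R using MvPolynomial.induction_on with
  | C a =>
    rw [rename_C, optionEquivRight_C, eval_C, aeval_C]
    rfl
  | add p q hp hq => simp only [map_add, hp, hq]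
  | mul_X p i hp =>
    rw [map_mul, map_mul, map_mul, hp, map_mul, rename_X, aeval_X]
    congr 1
    fin_cases i
    · have h : (finSuccEquiv 2) (0 : Fin 3) = none := rfl
      simp only [Fin.zero_eta, h, optionEquivRight_X_none, eval_C]
      rfl
    · have h : (finSuccEquiv 2) (1 : Fin 3) = some 0 := rfl
      simp only [Fin.mk_one, h, optionEquivRight_X_some, eval_X]
      rfl
    · have h : (finSuccEquiv 2) (2 : Fin 3) = some 1 := rfl
      simp only [Fin.reduceFinMk, h, optionEquivRight_X_some, eval_X]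
      rfl

open MvPolynomial in
/-- Kronecker substitution. -/
theorem exists_subst (R : MvPolynomial (Fin 3) (ZMod 3)) (hR : R ≠ 0) :
    ∃ c₂ c₃ : ℕ, aeval ![(Polynomial.X : Polynomial (ZMod 3)), Polynomial.X ^ (3 * c₂),
      Polynomial.X ^ (3 * c₃)] R ≠ 0 := by
  have : Fact (Nat.Prime 3) := ⟨Nat.prime_three⟩
  by_contra hcon
  push Not at hcon
  apply hR
  have hzero : optionEquivRight (ZMod 3) (Fin 2) (rename (finSuccEquiv 2) R) = 0 := by
    refine MvPolynomial.funext_set
      (fun _ : Fin 2 => Set.range (fun c : ℕ => (Polynomial.X : Polynomial (ZMod 3)) ^ (3 * c)))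
      ?_ ?_
    · intro _
      apply Set.infinite_range_of_injective
      intro a b hab
      have := congrArg Polynomial.natDegree hab
      simp only [Polynomial.natDegree_X_pow] at this
      omega
    · intro x hx
      have h0 := hx 0 (Set.mem_univ _)
      have h1 := hx 1 (Set.mem_univ _)
      obtain ⟨c₂, h0⟩ := h0
      obtain ⟨c₃, h1⟩ := h1
      rw [eval_option, ← h0, ← h1]
      simpa using hcon c₂ c₃
  rw [EmbeddingLike.map_eq_zero_iff] at hzero
  exact (map_eq_zero_iff _ (rename_injective _ (finSuccEquiv 2).injective)).1 hzero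

/-- The six generators of the ideal. -/
def gens {S : Type} [CommRing S] (x : Fin 3 → Sˣ) (D : Fin 3 → S) (A : S) (κ n c₂ c₃ : ℕ) :
    Fin 6 → S :=
  ![D 0 + D 2 * A,
    D 1 - D 2 * (x 0 : S) ^ κ * (1 - (x 0 : S)),
    (x 0 : S) ^ 3 ^ n + 1 - (x 0 : S),
    (1 - (x 0 : S)) * 3,
    (1 - (x 0 : S)) * ((x 1 : S) - (x 0 : S) ^ (3 * c₂)),
    (1 - (x 0 : S)) * ((x 2 : S) - (x 0 : S) ^ (3 * c₃))]

open MvPolynomial in
theorem al_core (d : Fin 3 → MvPolynomial (Fin 3) ℤ) (κ : ℕ) (R : MvPolynomial (Fin 3) (ZMod 3))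
    (hR : R ≠ 0)
    (h : ∀ (K : Type) [Field K] [Algebra (ZMod 3) K] (y : Fin 3 → K) (A : K),
      aeval y (map (Int.castRingHom (ZMod 3)) (d 0))
          + aeval y (map (Int.castRingHom (ZMod 3)) (d 2)) * A = 0 →
      aeval y (map (Int.castRingHom (ZMod 3)) (d 1))
          - aeval y (map (Int.castRingHom (ZMod 3)) (d 2)) * y 0 ^ κ * (1 - y 0) = 0 →
      aeval y R = 0) :
    ∃ n c₂ c₃ : ℕ, 1 ≤ n ∧ ∀ (S : Type) [CommRing S] (x : Fin 3 → Sˣ) (A : S),
      ∃ c : Fin 6 → S, ∑ i, c i * gens x (fun i => aeval (fun i => (x i : S)) (d i)) A κ n c₂ c₃ i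
        = 1 := by
  have : Fact (Nat.Prime 3) := ⟨Nat.prime_three⟩
  obtain ⟨c₂, c₃, hc⟩ := exists_subst R hR
  obtain ⟨n, hn, hfrob⟩ := exists_frob _ hc
  refine ⟨n, c₂, c₃, hn, ?_⟩
  intro S _ x A
  rw [← Ideal.mem_span_range_iff_exists_fun, ← Ideal.eq_top_iff_one]
  by_contra hne
  obtain ⟨m, hm, hle⟩ := Ideal.exists_le_maximal _ hne
  let _ : Field (S ⧸ m) := Ideal.Quotient.field m
  set π : S →+* S ⧸ m := Ideal.Quotient.mk m with hπ
  set G := gens x (fun i => aeval (fun i => (x i : S)) (d i)) A κ n c₂ c₃ with hG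
  have hz : ∀ i, π (G i) = 0 := fun i =>
    Ideal.Quotient.eq_zero_iff_mem.2 (hle (Ideal.subset_span ⟨i, rfl⟩))
  set ξ : S ⧸ m := π (x 0) with hξ
  have hξ0 : ξ ≠ 0 := ((x 0).isUnit.map π).ne_zero
  have g2 : ξ ^ 3 ^ n = ξ - 1 := by
    have := hz 2
    simp only [hG, gens, Matrix.cons_val, map_add, map_sub, map_pow, map_one] at this
    rw [← hξ] at this
    linear_combination this
  have h1ξ : 1 - ξ ≠ 0 := by
    intro h0
    apply pow_ne_zero (3 ^ n) hξ0
    rw [g2]; linear_combination -h0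
  have g3 : (3 : S ⧸ m) = 0 := by
    have := hz 3
    simp only [hG, gens, Matrix.cons_val, map_mul, map_sub, map_one, map_ofNat] at this
    rw [← hξ] at this
    exact (mul_eq_zero.1 this).resolve_left h1ξ
  have g4 : π (x 1) = ξ ^ (3 * c₂) := by
    have := hz 4
    simp only [hG, gens, Matrix.cons_val, map_mul, map_sub, map_one, map_pow] at this
    rw [← hξ] at this
    exact sub_eq_zero.1 ((mul_eq_zero.1 this).resolve_left h1ξ)
  have g5 : π (x 2) = ξ ^ (3 * c₃) := by
    have := hz 5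
    simp only [hG, gens, Matrix.cons_val, map_mul, map_sub, map_one, map_pow] at this
    rw [← hξ] at this
    exact sub_eq_zero.1 ((mul_eq_zero.1 this).resolve_left h1ξ)
  have hchar : CharP (S ⧸ m) 3 := by
    obtain ⟨p, hp⟩ := CharP.exists (S ⧸ m)
    have hdvd : p ∣ 3 := (CharP.cast_eq_zero_iff (S ⧸ m) p 3).1 (by exact_mod_cast g3)
    rcases (Nat.dvd_prime Nat.prime_three).1 hdvd with rfl | rfl
    · exfalso
      have := (CharP.cast_eq_zero_iff (S ⧸ m) 1 1).2 (one_dvd _)
      rw [Nat.cast_one] at this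
      exact one_ne_zero this
    · exact hp
  let _ : Algebra (ZMod 3) (S ⧸ m) := ZMod.algebra (S ⧸ m) 3
  set y : Fin 3 → S ⧸ m := fun i => π (x i) with hy
  have hev : ∀ p : MvPolynomial (Fin 3) ℤ, π (aeval (fun i => (x i : S)) p)
      = aeval y (map (Int.castRingHom (ZMod 3)) p) := by
    intro p
    induction p using MvPolynomial.induction_on with
    | C a => simp
    | add p q hp hq => simp only [map_add, hp, hq]
    | mul_X p i hp => simp only [map_mul, hp, aeval_X, map_X]; rfl
  have hRy : aeval y R = 0 := by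
    refine h (S ⧸ m) y (π A) ?_ ?_
    · have := hz 0
      simp only [hG, gens, Matrix.cons_val, map_add, map_mul] at this
      rw [hev, hev] at this
      exact this
    · have := hz 1
      simp only [hG, gens, Matrix.cons_val, map_sub, map_mul, map_pow, map_one] at this
      rw [hev, hev] at this
      exact this
  have hy2 : y = ![ξ, ξ ^ (3 * c₂), ξ ^ (3 * c₃)] := by
    funext i
    fin_cases i
    · rfl
    · exact g4
    · exact g5
  have hlast : Polynomial.aeval ξ (aeval ![(Polynomial.X : Polynomial (ZMod 3)),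
      Polynomial.X ^ (3 * c₂), Polynomial.X ^ (3 * c₃)] R) = 0 := by
    rw [← hRy, hy2]
    have : ∀ q : MvPolynomial (Fin 3) (ZMod 3),
        Polynomial.aeval ξ (aeval ![(Polynomial.X : Polynomial (ZMod 3)),
          Polynomial.X ^ (3 * c₂), Polynomial.X ^ (3 * c₃)] q)
        = aeval ![ξ, ξ ^ (3 * c₂), ξ ^ (3 * c₃)] q := by
      intro q
      induction q using MvPolynomial.induction_on with
      | C a => simp
      | add p q hp hq => simp only [map_add, hp, hq]
      | mul_X p i hp =>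
        simp only [map_mul, hp, aeval_X]
        congr 1
        fin_cases i <;> simp
    exact this R
  have := hfrob (S ⧸ m) ξ hlast
  rw [g2] at this
  exact one_ne_zero (by linear_combination -this : (1 : S ⧸ m) = 0)

open MvPolynomial in
/-- The algebra lemma. -/
theorem al (d : Fin 3 → MvPolynomial (Fin 3) ℤ)
    (hd : ∃ i, map (Int.castRingHom (ZMod 3)) (d i) ≠ 0) :
    ∃ κ n c₂ c₃ : ℕ, 1 ≤ n ∧ ∀ (S : Type) [CommRing S] (x : Fin 3 → Sˣ) (A : S),
      ∃ c : Fin 6 → S, ∑ i, c i * gens x (fun i => aeval (fun i => (x i : S)) (d i)) A κ n c₂ c₃ i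
        = 1 := by
  have : Fact (Nat.Prime 3) := ⟨Nat.prime_three⟩
  set r : Fin 3 → MvPolynomial (Fin 3) (ZMod 3) := fun i => map (Int.castRingHom (ZMod 3)) (d i)
    with hr
  by_cases h2 : r 2 = 0
  · by_cases h1 : r 1 = 0
    · have h0 : r 0 ≠ 0 := by
        obtain ⟨i, hi⟩ := hd
        fin_cases i
        · exact hi
        · exact absurd h1 hi
        · exact absurd h2 hi
      refine ⟨0, al_core d 0 (r 0) h0 ?_⟩
      intro K _ _ y A e1 _
      rw [show map (Int.castRingHom (ZMod 3)) (d 2) = 0 from h2, map_zero, zero_mul, add_zero] at e1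
      exact e1
    · refine ⟨0, al_core d 0 (r 1) h1 ?_⟩
      intro K _ _ y A _ e2
      rw [show map (Int.castRingHom (ZMod 3)) (d 2) = 0 from h2, map_zero, zero_mul, zero_mul,
        sub_zero] at e2
      exact e2
  · by_cases h : r 1 - r 2 * X 0 ^ 0 * (1 - X 0) ≠ 0
    · refine ⟨0, al_core d 0 _ h ?_⟩
      intro K _ _ y A _ e2
      simp only [map_sub, map_mul, map_pow, map_one, aeval_X]
      exact e2
    · have h' : r 1 - r 2 * X 0 ^ 1 * (1 - X 0) ≠ 0 := by
        intro h''
        rw [not_not] at h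
        have h5 : r 2 * (1 - X 0) ^ 2 = 0 := by linear_combination h'' - h
        rcases mul_eq_zero.1 h5 with h6 | h6
        · exact h2 h6
        · have h7 := pow_eq_zero_iff (two_ne_zero) |>.1 h6
          have h8 := congrArg (aeval (fun _ => (0 : ZMod 3))) h7
          simp at h8
      refine ⟨1, al_core d 1 _ h' ?_⟩
      intro K _ _ y A _ e2
      simp only [map_sub, map_mul, map_pow, map_one, aeval_X]
      exact e2

open MvPolynomial in
/-- Division by a power of three. -/
theorem exists_div (m : Fin 3 →₀ ℕ) (k : ℕ) : ∀ (d : Fin 3 → MvPolynomial (Fin 3) ℤ),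
    coeff m (d 2) ≠ 0 → (coeff m (d 2)).natAbs ≤ k →
    ∃ (N : ℕ) (d' : Fin 3 → MvPolynomial (Fin 3) ℤ), (∀ i, d i = C (3 ^ N) * d' i) ∧
      ∃ i, map (Int.castRingHom (ZMod 3)) (d' i) ≠ 0 := by
  induction k with
  | zero =>
    intro d h1 h2
    exact absurd (Int.natAbs_eq_zero.1 (Nat.le_zero.1 h2)) h1
  | succ k ih =>
    intro d h1 h2
    by_cases h : ∃ i, map (Int.castRingHom (ZMod 3)) (d i) ≠ 0
    · exact ⟨0, d, fun i => by simp, h⟩
    · push Not at h
      have hdvd : ∀ i, (C (3 : ℤ)) ∣ d i := by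
        intro i
        rw [C_dvd_iff_map_hom_eq_zero (Int.castRingHom (ZMod 3)) 3]
        · exact h i
        · intro a
          simp only [eq_intCast]
          exact_mod_cast (ZMod.intCast_zmod_eq_zero_iff_dvd a 3)
      choose e he using hdvd
      have hc : coeff m (d 2) = 3 * coeff m (e 2) := by rw [he 2, coeff_C_mul]
      obtain ⟨N, d', h3, h4⟩ := ih e (by intro h0; rw [hc, h0] at h1; simp at h1) (by
        rw [hc, Int.natAbs_mul] at h2
        have : (coeff m (e 2)).natAbs ≠ 0 := by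
          intro h0
          rw [Int.natAbs_eq_zero] at h0
          rw [hc, h0] at h1; simp at h1
        simp at h2
        omega)
      refine ⟨N + 1, d', fun i => ?_, h4⟩
      rw [he i, h3 i, pow_succ, C_mul]
      ring

end Pool.Agent.W861.VC
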