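import Mathlib.GroupTheory.Solvable
import Mathlib.GroupTheory.FreeGroup.Basic
import Mathlib.GroupTheory.QuotientGroup.Basic
import Mathlib.Tactic

set_option autoImplicit false

/-!
# A verbally closed subgroup of the free metabelian group of rank 7 that is not a retract

`G = F_7 / F_7''` with free generators `x₁ x₂ x₃ z₁ z₂ z₃ z₄` (indices `0,…,6`), and
`H = ⟨x₁, x₂, u x₃⟩`, where `u` is the word `uw` below.
-/

namespace Pool.Agent.W861.VC

/-- The commutator `a b a⁻¹ b⁻¹`. -/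
def cm {Γ : Type*} [Group Γ] (a b : Γ) : Γ := a * b * a⁻¹ * b⁻¹

/-- The word `u` evaluated in a group. -/
def uw {Γ : Type*} [Group Γ] (X : Fin 7 → Γ) : Γ :=
  cm (X 0) (X 3) ^ 3
    * (X 1 * cm (X 0) (X 4) * (X 1)⁻¹) * (X 4 ^ 3 * cm (X 0) (X 4) * (X 4 ^ 3)⁻¹)⁻¹
    * (X 2 * cm (X 0) (X 5) * (X 2)⁻¹) * (X 5 ^ 3 * cm (X 0) (X 5) * (X 5 ^ 3)⁻¹)⁻¹
    * ((X 3 ^ 3)⁻¹ * cm (X 0) (X 2) * X 3 ^ 3)⁻¹
    * (X 6 * cm (X 0) (X 1) * (X 6)⁻¹)

theorem map_cm {Γ Δ : Type*} [Group Γ] [Group Δ] (f : Γ →* Δ) (a b : Γ) :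
    f (cm a b) = cm (f a) (f b) := by
  simp only [cm, map_mul, map_inv]

theorem map_uw {Γ Δ : Type*} [Group Γ] [Group Δ] (f : Γ →* Δ) (X : Fin 7 → Γ) :
    f (uw X) = uw (fun i => f (X i)) := by
  simp only [uw, map_mul, map_inv, map_pow, map_cm]

theorem cm_comm {Γ : Type*} [CommGroup Γ] (a b : Γ) : cm a b = 1 := by
  unfold cm
  rw [mul_comm a b]; group

theorem uw_comm {Γ : Type*} [CommGroup Γ] (X : Fin 7 → Γ) : uw X = 1 := by
  simp [uw, cm_comm]

open scoped commutatorElement in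
/-- A group that has a homomorphism to a commutative group with commutative kernel is
metabelian. -/
theorem derivedSeries_two_eq_bot {Γ C : Type*} [Group Γ] [CommGroup C] (π : Γ →* C)
    (h : ∀ a b : Γ, π a = 1 → π b = 1 → a * b = b * a) : derivedSeries Γ 2 = ⊥ := by
  have h1 : derivedSeries Γ 1 ≤ π.ker := by
    rw [derivedSeries_succ, derivedSeries_zero, Subgroup.commutator_le]
    intro a _ b _
    rw [MonoidHom.mem_ker, map_commutatorElement, commutatorElement_eq_one_iff_mul_comm, mul_comm]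
  rw [derivedSeries_succ, eq_bot_iff, Subgroup.commutator_le]
  intro a ha b hb
  rw [Subgroup.mem_bot, commutatorElement_eq_one_iff_mul_comm]
  exact h a b (h1 ha) (h1 hb)

/-- The free metabelian group of rank `7`. -/
abbrev G7 : Type := FreeGroup (Fin 7) ⧸ derivedSeries (FreeGroup (Fin 7)) 2

/-- Its generators. -/
def gen (i : Fin 7) : G7 := QuotientGroup.mk (FreeGroup.of i)

theorem le_ker_lift {Γ : Type*} [Group Γ] (h : derivedSeries Γ 2 = ⊥) (X : Fin 7 → Γ) :
    derivedSeries (FreeGroup (Fin 7)) 2 ≤ (FreeGroup.lift X).ker := by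
  intro x hx
  have := map_derivedSeries_le_derivedSeries (FreeGroup.lift X) 2
  have h2 : FreeGroup.lift X x ∈ derivedSeries Γ 2 := this (Subgroup.mem_map_of_mem _ hx)
  rw [h, Subgroup.mem_bot] at h2
  exact h2

/-- The homomorphism to a metabelian group given on generators. -/
def liftG {Γ : Type*} [Group Γ] (h : derivedSeries Γ 2 = ⊥) (X : Fin 7 → Γ) : G7 →* Γ :=
  QuotientGroup.lift _ (FreeGroup.lift X) (le_ker_lift h X)

@[simp] theorem liftG_gen {Γ : Type*} [Group Γ] (h : derivedSeries Γ 2 = ⊥) (X : Fin 7 → Γ)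
    (i : Fin 7) : liftG h X (gen i) = X i := by
  unfold liftG gen
  rw [QuotientGroup.lift_mk]
  simp

theorem derivedSeries_quot {Γ : Type*} [Group Γ] (n : ℕ) :
    derivedSeries (Γ ⧸ derivedSeries Γ n) n = ⊥ := by
  have h := map_derivedSeries_eq (f := QuotientGroup.mk' (derivedSeries Γ n))
    (QuotientGroup.mk'_surjective _) n
  rw [← h]
  ext x
  constructor
  · rintro ⟨y, hy, rfl⟩
    rw [Subgroup.mem_bot]
    exact (QuotientGroup.eq_one_iff y).2 hy
  · intro hx
    rw [Subgroup.mem_bot] at hx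
    rw [hx]; exact Subgroup.one_mem _

theorem metab_G7 : derivedSeries G7 2 = ⊥ := derivedSeries_quot 2

theorem metab_subgroup {Γ : Type*} [Group Γ] (h : derivedSeries Γ 2 = ⊥) (H : Subgroup Γ) :
    derivedSeries H 2 = ⊥ := by
  have h1 := map_derivedSeries_le_derivedSeries H.subtype 2
  rw [h] at h1
  rw [eq_bot_iff]
  intro x hx
  have := h1 (Subgroup.mem_map_of_mem _ hx)
  rw [Subgroup.mem_bot] at this ⊢
  exact Subtype.ext this

/-- The three generators of `H`. -/
def hg : Fin 3 → G7 := ![gen 0, gen 1, uw gen * gen 2]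

/-- The subgroup `H`. -/
def H7 : Subgroup G7 := Subgroup.closure (Set.range hg)

end Pool.Agent.W861.VC
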