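import Pool.Agent.W861.VC.Defs
import Pool.Agent.W861.VC.Alg

set_option autoImplicit false

/-!
# Fox calculus in a metabelian group and the main lemma
-/

namespace Pool.Agent.W861.VC

/-- The data: `M` is the commutator subgroup written additively, as a module over a commutative
ring in which the classes of the elements of the group are units. -/
structure Data (H : Type) [Group H] (S M : Type) [CommRing S] [AddCommGroup M] [Module S M] where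
  ι : M → H
  bar : H →* Sˣ
  ι_zero : ι 0 = 1
  ι_add : ∀ x y, ι (x + y) = ι x * ι y
  ι_smul : ∀ (g : H) (x : M), ι ((bar g : S) • x) = g * ι x * g⁻¹
  bar_ι : ∀ x, bar (ι x) = 1
  cm_mem : ∀ a b : H, ∃ m, cm a b = ι m

namespace Data

variable {H : Type} [Group H] {S M : Type} [CommRing S] [AddCommGroup M] [Module S M]
  (𝒟 : Data H S M)

theorem ι_neg (x : M) : 𝒟.ι (-x) = (𝒟.ι x)⁻¹ := by
  rw [eq_inv_iff_mul_eq_one, ← 𝒟.ι_add, neg_add_cancel, 𝒟.ι_zero]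

theorem ι_nsmul (n : ℕ) (x : M) : 𝒟.ι ((n : S) • x) = 𝒟.ι x ^ n := by
  induction n with
  | zero => simp [𝒟.ι_zero]
  | succ n ih => rw [pow_succ, ← ih, Nat.cast_succ, add_smul, one_smul, 𝒟.ι_add]

theorem bar_mul_ι (x : M) (g : H) : 𝒟.bar (𝒟.ι x * g) = 𝒟.bar g := by
  rw [map_mul, 𝒟.bar_ι, one_mul]

theorem cm_formula (a b : H) (m v w : M) (hm : cm a b = 𝒟.ι m) :
    cm (𝒟.ι v * a) (𝒟.ι w * b)
      = 𝒟.ι (m + (1 - (𝒟.bar b : S)) • v - (1 - (𝒟.bar a : S)) • w) := by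
  have h1 : cm (𝒟.ι v * a) (𝒟.ι w * b)
      = 𝒟.ι v * (a * 𝒟.ι w * a⁻¹) * ((a * b * a⁻¹) * 𝒟.ι (-v) * (a * b * a⁻¹)⁻¹) * cm a b
        * 𝒟.ι (-w) := by
    rw [𝒟.ι_neg, 𝒟.ι_neg]; unfold cm; group
  have h2 : (𝒟.bar (a * b * a⁻¹) : S) = (𝒟.bar b : S) := by
    congr 1
    rw [map_mul, map_mul, mul_comm (𝒟.bar a), mul_assoc, ← map_mul, mul_inv_cancel, map_one,
      mul_one]
  rw [h1, hm, ← 𝒟.ι_smul, ← 𝒟.ι_smul, ← 𝒟.ι_add, ← 𝒟.ι_add, ← 𝒟.ι_add, ← 𝒟.ι_add, h2]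
  congr 1
  module

theorem uw_formula (a : Fin 3 → H) (X : Fin 7 → H) (v w : Fin 3 → M) (k : Fin 3 → ℕ) (κ : ℕ)
    (p q : M) (hp : cm (a 0) (a 2) = 𝒟.ι p) (hq : cm (a 0) (a 1) = 𝒟.ι q)
    (h0 : X 0 = 𝒟.ι (v 0) * a 0) (h1 : X 1 = 𝒟.ι (v 1) * a 1) (h2 : X 2 = 𝒟.ι (v 2) * a 2)
    (h3 : X 3 = 𝒟.ι (w 0) * a 0 ^ k 0) (h4 : X 4 = 𝒟.ι (w 1) * a 0 ^ k 1)
    (h5 : X 5 = 𝒟.ι (w 2) * a 0 ^ k 2) (h6 : X 6 = a 0 ^ κ)
    (x : Fin 3 → Sˣ) (hx : ∀ i, x i = 𝒟.bar (a i)) (y : Sˣ) (hy : y = (x 0 ^ (3 * k 0))⁻¹) :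
    uw X = 𝒟.ι (
      (3 : S) • ((1 - (x 0 : S) ^ k 0) • v 0 - (1 - (x 0 : S)) • w 0)
      + ((x 1 : S) - (x 0 : S) ^ (3 * k 1)) •
          ((1 - (x 0 : S) ^ k 1) • v 0 - (1 - (x 0 : S)) • w 1)
      + ((x 2 : S) - (x 0 : S) ^ (3 * k 2)) •
          ((1 - (x 0 : S) ^ k 2) • v 0 - (1 - (x 0 : S)) • w 2)
      - (y : S) • ((1 - (x 2 : S)) • v 0 - (1 - (x 0 : S)) • v 2)
      + (x 0 : S) ^ κ • ((1 - (x 1 : S)) • v 0 - (1 - (x 0 : S)) • v 1)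
      + ((x 0 : S) ^ κ • q - (y : S) • p)) := by
  have hpow : ∀ n : ℕ, cm (a 0) (a 0 ^ n) = 𝒟.ι 0 := by
    intro n
    rw [𝒟.ι_zero]
    unfold cm
    have : a 0 * a 0 ^ n = a 0 ^ n * a 0 := by rw [← pow_succ', pow_succ]
    rw [this]; group
  have hbar : ∀ n : ℕ, (𝒟.bar (a 0 ^ n) : S) = (x 0 : S) ^ n := by
    intro n
    rw [map_pow, ← hx, Units.val_pow_eq_pow_val]
  have c3 : cm (X 0) (X 3)
      = 𝒟.ι ((1 - (x 0 : S) ^ k 0) • v 0 - (1 - (x 0 : S)) • w 0) := by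
    rw [h0, h3, 𝒟.cm_formula _ _ _ _ _ (hpow _), hbar, ← hx, zero_add]
  have c4 : cm (X 0) (X 4)
      = 𝒟.ι ((1 - (x 0 : S) ^ k 1) • v 0 - (1 - (x 0 : S)) • w 1) := by
    rw [h0, h4, 𝒟.cm_formula _ _ _ _ _ (hpow _), hbar, ← hx, zero_add]
  have c5 : cm (X 0) (X 5)
      = 𝒟.ι ((1 - (x 0 : S) ^ k 2) • v 0 - (1 - (x 0 : S)) • w 2) := by
    rw [h0, h5, 𝒟.cm_formula _ _ _ _ _ (hpow _), hbar, ← hx, zero_add]
  have c2 : cm (X 0) (X 2)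
      = 𝒟.ι (p + (1 - (x 2 : S)) • v 0 - (1 - (x 0 : S)) • v 2) := by
    rw [h0, h2, 𝒟.cm_formula _ _ _ _ _ hp, ← hx, ← hx]
  have c1 : cm (X 0) (X 1)
      = 𝒟.ι (q + (1 - (x 1 : S)) • v 0 - (1 - (x 0 : S)) • v 1) := by
    rw [h0, h1, 𝒟.cm_formula _ _ _ _ _ hq, ← hx, ← hx]
  have b1 : 𝒟.bar (X 1) = x 1 := by rw [h1, 𝒟.bar_mul_ι, hx]
  have b2 : 𝒟.bar (X 2) = x 2 := by rw [h2, 𝒟.bar_mul_ι, hx]
  have b3 : 𝒟.bar (X 3) = x 0 ^ k 0 := by rw [h3, 𝒟.bar_mul_ι, map_pow, hx]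
  have b4 : 𝒟.bar (X 4) = x 0 ^ k 1 := by rw [h4, 𝒟.bar_mul_ι, map_pow, hx]
  have b5 : 𝒟.bar (X 5) = x 0 ^ k 2 := by rw [h5, 𝒟.bar_mul_ι, map_pow, hx]
  have b6 : 𝒟.bar (X 6) = x 0 ^ κ := by rw [h6, map_pow, hx]
  have b3' : ((𝒟.bar ((X 3 ^ 3)⁻¹) : Sˣ) : S) = (y : S) := by
    rw [map_inv, map_pow, b3, hy, ← pow_mul, mul_comm]
  have b4' : ((𝒟.bar (X 4 ^ 3) : Sˣ) : S) = (x 0 : S) ^ (3 * k 1) := by
    rw [map_pow, b4, ← pow_mul, mul_comm, Units.val_pow_eq_pow_val]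
  have b5' : ((𝒟.bar (X 5 ^ 3) : Sˣ) : S) = (x 0 : S) ^ (3 * k 2) := by
    rw [map_pow, b5, ← pow_mul, mul_comm, Units.val_pow_eq_pow_val]
  have b6' : ((𝒟.bar (X 6) : Sˣ) : S) = (x 0 : S) ^ κ := by
    rw [b6, Units.val_pow_eq_pow_val]
  have e1 : (X 3 ^ 3)⁻¹ * cm (X 0) (X 2) * X 3 ^ 3
      = (X 3 ^ 3)⁻¹ * cm (X 0) (X 2) * ((X 3 ^ 3)⁻¹)⁻¹ := by rw [inv_inv]
  unfold uw
  rw [e1, c1, c2, c3, c4, c5, ← 𝒟.ι_smul, ← 𝒟.ι_smul, ← 𝒟.ι_smul, ← 𝒟.ι_smul, ← 𝒟.ι_smul,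
    ← 𝒟.ι_smul, ← 𝒟.ι_neg, ← 𝒟.ι_neg, ← 𝒟.ι_neg, ← 𝒟.ι_nsmul, ← 𝒟.ι_add, ← 𝒟.ι_add,
    ← 𝒟.ι_add, ← 𝒟.ι_add, ← 𝒟.ι_add, ← 𝒟.ι_add, b3', b4', b5', b6', b1, b2]
  congr 1
  push_cast
  module

open MvPolynomial in
/-- Fox calculus. -/
theorem fox (a : Fin 3 → H) (x : Fin 3 → Sˣ) (hx : ∀ i, x i = 𝒟.bar (a i))
    (W : FreeGroup (Fin 3)) :
    ∃ (m m' : MvPolynomial (Fin 3) ℤ) (d : Fin 3 → MvPolynomial (Fin 3) ℤ),
      IsUnit (aeval (fun i => (x i : S)) m) ∧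
      aeval (fun i => (x i : S)) m * (𝒟.bar (FreeGroup.lift a W) : S)
        = aeval (fun i => (x i : S)) m' ∧
      ∀ v : Fin 3 → M, ∃ δ : M,
        FreeGroup.lift (fun i => 𝒟.ι (v i) * a i) W = 𝒟.ι δ * FreeGroup.lift a W ∧
        aeval (fun i => (x i : S)) m • δ = aeval (fun i => (x i : S)) (d 0) • v 0
          + aeval (fun i => (x i : S)) (d 1) • v 1 + aeval (fun i => (x i : S)) (d 2) • v 2 := by
  induction W using FreeGroup.induction_on with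
  | C1 =>
    refine ⟨1, 1, 0, by simp, by simp, fun v => ⟨0, by simp [𝒟.ι_zero], by simp⟩⟩
  | of i =>
    refine ⟨1, X i, Pi.single i 1, by simp, by simp [hx], fun v => ⟨v i, by simp, ?_⟩⟩
    fin_cases i <;> simp
  | inv_of i _ =>
    refine ⟨X i, 1, Pi.single i (-1), by simp, by simp [hx], fun v =>
      ⟨- (((x i)⁻¹ : Sˣ) : S) • v i, ?_, ?_⟩⟩
    · rw [map_inv, map_inv, FreeGroup.lift_apply_of, FreeGroup.lift_apply_of]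
      rw [hx, ← map_inv, neg_smul, 𝒟.ι_neg, 𝒟.ι_smul]
      group
    · rw [aeval_X, smul_smul]
      fin_cases i <;> simp
  | mul V W hV hW =>
    obtain ⟨m₁, m₁', d₁, u₁, e₁, f₁⟩ := hV
    obtain ⟨m₂, m₂', d₂, u₂, e₂, f₂⟩ := hW
    refine ⟨m₁ * m₂, m₁' * m₂', fun i => m₂ * d₁ i + m₁' * d₂ i, ?_, ?_, ?_⟩
    · rw [map_mul]; exact u₁.mul u₂
    · rw [map_mul, map_mul, map_mul, map_mul, Units.val_mul, ← e₁, ← e₂]; ring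
    · intro v
      obtain ⟨δ₁, g₁, k₁⟩ := f₁ v
      obtain ⟨δ₂, g₂, k₂⟩ := f₂ v
      refine ⟨δ₁ + (𝒟.bar (FreeGroup.lift a V) : S) • δ₂, ?_, ?_⟩
      · rw [map_mul, map_mul, g₁, g₂, 𝒟.ι_add, 𝒟.ι_smul]
        group
      · have h3 : (aeval (fun i => (x i : S)) (m₁ * m₂)) •
            (δ₁ + (𝒟.bar (FreeGroup.lift a V) : S) • δ₂)
            = aeval (fun i => (x i : S)) m₂ • (aeval (fun i => (x i : S)) m₁ • δ₁)
              + (aeval (fun i => (x i : S)) m₁ * (𝒟.bar (FreeGroup.lift a V) : S)) •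
                (aeval (fun i => (x i : S)) m₂ • δ₂) := by
          rw [map_mul]; module
        rw [h3, k₁, k₂, e₁]
        simp only [map_add, map_mul]
        module

include 𝒟 in
open MvPolynomial in
/-- The main lemma. -/
theorem main (a : Fin 3 → H) (W : FreeGroup (Fin 3)) :
    ∃ X : Fin 7 → H, FreeGroup.lift ![X 0, X 1, uw X * X 2] W = FreeGroup.lift a W := by
  set x : Fin 3 → Sˣ := fun i => 𝒟.bar (a i) with hxdef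
  have hx : ∀ i, x i = 𝒟.bar (a i) := fun i => rfl
  obtain ⟨m, m', d, um, -, hW⟩ := 𝒟.fox a x hx W
  obtain ⟨p, hp⟩ := 𝒟.cm_mem (a 0) (a 2)
  obtain ⟨q, hq⟩ := 𝒟.cm_mem (a 0) (a 1)
  -- reduction to a linear equation
  have red : ∀ (v w : Fin 3 → M) (k : Fin 3 → ℕ) (κ : ℕ) (y : Sˣ) (_ : y = (x 0 ^ (3 * k 0))⁻¹)
      (T : M) (_ : T = (3 : S) • ((1 - (x 0 : S) ^ k 0) • v 0 - (1 - (x 0 : S)) • w 0)
      + ((x 1 : S) - (x 0 : S) ^ (3 * k 1)) •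
          ((1 - (x 0 : S) ^ k 1) • v 0 - (1 - (x 0 : S)) • w 1)
      + ((x 2 : S) - (x 0 : S) ^ (3 * k 2)) •
          ((1 - (x 0 : S) ^ k 2) • v 0 - (1 - (x 0 : S)) • w 2)
      - (y : S) • ((1 - (x 2 : S)) • v 0 - (1 - (x 0 : S)) • v 2)
      + (x 0 : S) ^ κ • ((1 - (x 1 : S)) • v 0 - (1 - (x 0 : S)) • v 1)
      + ((x 0 : S) ^ κ • q - (y : S) • p)),
      aeval (fun i => (x i : S)) (d 0) • v 0
          + aeval (fun i => (x i : S)) (d 1) • v 1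
          + aeval (fun i => (x i : S)) (d 2) • (T + v 2) = 0 →
      ∃ X : Fin 7 → H, FreeGroup.lift ![X 0, X 1, uw X * X 2] W = FreeGroup.lift a W := by
    intro v w k κ y hy T hT hlin
    set X : Fin 7 → H := ![𝒟.ι (v 0) * a 0, 𝒟.ι (v 1) * a 1, 𝒟.ι (v 2) * a 2,
      𝒟.ι (w 0) * a 0 ^ k 0, 𝒟.ι (w 1) * a 0 ^ k 1, 𝒟.ι (w 2) * a 0 ^ k 2, a 0 ^ κ] with hX
    have hu := 𝒟.uw_formula a X v w k κ p q hp hq rfl rfl rfl rfl rfl rfl rfl x hx y hy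
    rw [← hT] at hu
    refine ⟨X, ?_⟩
    obtain ⟨δ, h1, h2⟩ := hW ![v 0, v 1, T + v 2]
    simp only [Matrix.cons_val_zero, Matrix.cons_val_one, Matrix.cons_val] at h2
    rw [hlin] at h2
    have hδ : δ = 0 := by
      obtain ⟨u, hu'⟩ := um
      rw [← hu'] at h2
      have := congrArg (fun z => ((u⁻¹ : Sˣ) : S) • z) h2
      simpa [smul_smul] using this
    rw [hδ, 𝒟.ι_zero, one_mul] at h1
    rw [← h1]
    congr 1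
    congr 1
    funext i
    fin_cases i
    · rfl
    · rfl
    · show uw X * X 2 = 𝒟.ι (T + v 2) * a 2
      rw [hu, 𝒟.ι_add, mul_assoc]
      rfl
  by_cases hd2 : d 2 = 0
  · refine red 0 0 0 0 1 (by simp) _ rfl ?_
    simp [hd2]
  · obtain ⟨mm, hmm⟩ := MvPolynomial.ne_zero_iff.1 hd2
    obtain ⟨N, d', hdd, hne⟩ := exists_div mm _ d hmm le_rfl
    obtain ⟨κ, n, c₂, c₃, hn, hal⟩ := al d' hne
    obtain ⟨n', rfl⟩ : ∃ n', n = n' + 1 := ⟨n - 1, by omega⟩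
    set y : Sˣ := (x 0 ^ (3 * 3 ^ n'))⁻¹ with hy
    set Z : S := (x 0 : S) ^ (3 ^ (n' + 1)) with hZ
    have hyZ : (y : S) * Z = 1 := by
      have : Z = ((x 0 ^ (3 * 3 ^ n') : Sˣ) : S) := by
        rw [hZ, Units.val_pow_eq_pow_val, pow_succ']
      rw [this, hy, ← Units.val_mul, inv_mul_cancel, Units.val_one]
    set D : Fin 3 → S := fun i => aeval (fun i => (x i : S)) (d' i) with hD
    set A : S := 3 * (1 - (x 0 : S) ^ 3 ^ n') + ((x 1 : S) - (x 0 : S) ^ (3 * c₂)) *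
        (1 - (x 0 : S) ^ c₂) + ((x 2 : S) - (x 0 : S) ^ (3 * c₃)) * (1 - (x 0 : S) ^ c₃)
        - (y : S) * (1 - (x 2 : S)) + (x 0 : S) ^ κ * (1 - (x 1 : S)) with hA
    obtain ⟨c, hc⟩ := hal S x A
    rw [Fin.sum_univ_six] at hc
    simp only [gens, Matrix.cons_val_zero, Matrix.cons_val_one, Matrix.cons_val] at hc
    change c 0 * (D 0 + D 2 * A) + c 1 * (D 1 - D 2 * (x 0 : S) ^ κ * (1 - (x 0 : S)))
      + c 2 * (Z + 1 - (x 0 : S)) + c 3 * ((1 - (x 0 : S)) * 3)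
      + c 4 * ((1 - (x 0 : S)) * ((x 1 : S) - (x 0 : S) ^ (3 * c₂)))
      + c 5 * ((1 - (x 0 : S)) * ((x 2 : S) - (x 0 : S) ^ (3 * c₃))) = 1 at hc
    set u₀ : M := (x 0 : S) ^ κ • q - (y : S) • p with hu₀
    refine red ![-(c 0 * D 2) • u₀, -(c 1 * D 2) • u₀, -(c 2 * Z) • u₀]
      ![c 3 • u₀, c 4 • u₀, c 5 • u₀] ![3 ^ n', c₂, c₃] κ y hy _ rfl ?_
    simp only [Matrix.cons_val_zero, Matrix.cons_val_one, Matrix.cons_val]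
    rw [← hu₀]
    have hdi : ∀ i, aeval (fun i => (x i : S)) (d i) = 3 ^ N * D i := by
      intro i
      rw [hdd i, map_mul, aeval_C]
      simp [hD]
    rw [hdi, hdi, hdi]
    rw [hA] at hc
    linear_combination (norm := module) (-(3 ^ N * D 2 * 1) : S) • hc • u₀
      + ((3 : S) ^ N * D 2 * (c 2 * (1 - (x 0 : S)) * (-1))) • hyZ • u₀

end Data

end Pool.Agent.W861.VC
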