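import Pool.Agent.W861.VC.Fox
import Mathlib.GroupTheory.Abelianization.Defs
import Mathlib.Algebra.MonoidAlgebra.Basic

set_option autoImplicit false

/-!
# The module structure on the commutator subgroup of a metabelian group
-/

namespace Pool.Agent.W861.VC

/-- A metabelian group. -/
class Metab (H : Type) [Group H] : Prop where
  comm : ∀ a b : H, a ∈ commutator H → b ∈ commutator H → a * b = b * a

/-- The commutator subgroup, written additively. -/
@[ext] structure MM (H : Type) [Group H] : Type where
  val : H
  mem : val ∈ commutator H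

variable {H : Type} [Group H]

instance : Zero (MM H) := ⟨⟨1, Subgroup.one_mem _⟩⟩
instance : Add (MM H) := ⟨fun x y => ⟨x.val * y.val, Subgroup.mul_mem _ x.mem y.mem⟩⟩
instance : Neg (MM H) := ⟨fun x => ⟨x.val⁻¹, Subgroup.inv_mem _ x.mem⟩⟩

@[simp] theorem zero_val : (0 : MM H).val = 1 := rfl
@[simp] theorem add_val (x y : MM H) : (x + y).val = x.val * y.val := rfl
@[simp] theorem neg_val (x : MM H) : (-x).val = x.val⁻¹ := rfl

instance [Metab H] : AddCommGroup (MM H) where
  add_assoc x y z := by ext; simp [mul_assoc]
  zero_add x := by ext; simp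
  add_zero x := by ext; simp
  nsmul := nsmulRec
  zsmul := zsmulRec
  neg_add_cancel x := by ext; simp
  add_comm x y := by ext; exact Metab.comm _ _ x.mem y.mem

/-- Conjugation. -/
def act [Metab H] : H →* Module.End ℤ (MM H) where
  toFun g := AddMonoidHom.toIntLinearMap
    { toFun := fun x => ⟨g * x.val * g⁻¹, (inferInstance : (commutator H).Normal).conj_mem _ x.mem g⟩
      map_zero' := by ext; simp
      map_add' := fun x y => by ext; simp }
  map_one' := by
    ext x
    simp
  map_mul' g h := by
    ext x
    simp [mul_assoc]

theorem act_apply [Metab H] (g : H) (x : MM H) : (act g x).val = g * x.val * g⁻¹ := rfl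

theorem act_ker [Metab H] : commutator H ≤ (act (H := H)).toHomUnits.ker := by
  intro g hg
  rw [MonoidHom.mem_ker]
  ext x
  rw [MonoidHom.coe_toHomUnits, act_apply, Metab.comm g x.val hg x.mem]
  simp

/-- Conjugation, as an action of the abelianization. -/
def actA [Metab H] : Abelianization H →* Module.End ℤ (MM H) :=
  (Units.coeHom _).comp (QuotientGroup.lift (commutator H) (act (H := H)).toHomUnits act_ker)

theorem actA_mk [Metab H] (g : H) : actA (H := H) (Abelianization.of g) = act g := rfl

/-- The group ring of the abelianization. -/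
abbrev SS (H : Type) [Group H] : Type := MonoidAlgebra ℤ (Abelianization H)

/-- The ring homomorphism defining the module structure. -/
noncomputable def ringAct [Metab H] : SS H →+* Module.End ℤ (MM H) :=
  (MonoidAlgebra.lift ℤ (Module.End ℤ (MM H)) (Abelianization H) (actA (H := H))).toRingHom

noncomputable instance [Metab H] : Module (SS H) (MM H) :=
  Module.compHom (MM H) (ringAct (H := H))

/-- The class of an element in the units of the group ring. -/
noncomputable def barU : H →* (SS H)ˣ :=
  ((MonoidAlgebra.of ℤ (Abelianization H)).comp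
    (Abelianization.of (G := H))).toHomUnits

theorem barU_smul [Metab H] (g : H) (x : MM H) : ((barU g : (SS H)ˣ) : SS H) • x = act g x := by
  show ringAct (H := H) _ x = _
  unfold ringAct barU
  rw [MonoidHom.coe_toHomUnits]
  show MonoidAlgebra.lift ℤ (Module.End ℤ (MM H)) (Abelianization H) (actA (H := H)) 
    (MonoidAlgebra.of ℤ (Abelianization H) (Abelianization.of g)) x = _
  rw [MonoidAlgebra.lift_of, actA_mk]

/-- The data of a metabelian group. -/
noncomputable def mkData (H : Type) [Group H] [Metab H] : Data H (SS H) (MM H) where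
  ι := MM.val
  bar := barU
  ι_zero := rfl
  ι_add _ _ := rfl
  ι_smul g x := by rw [barU_smul, act_apply]
  bar_ι x := by
    ext1
    unfold barU
    rw [MonoidHom.coe_toHomUnits, MonoidHom.comp_apply]
    have : Abelianization.of x.val = 1 := by
      have h := x.mem
      exact (QuotientGroup.eq_one_iff x.val).2 h
    rw [this, map_one, Units.val_one]
  cm_mem a b := ⟨⟨cm a b, by
    open scoped commutatorElement in
    have : cm a b = ⁅a, b⁆ := rfl
    rw [this]
    exact Subgroup.commutator_mem_commutator (Subgroup.mem_top a) (Subgroup.mem_top b)⟩, rfl⟩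

theorem metab_of_derived (h : derivedSeries H 2 = ⊥) : Metab H := by
  refine ⟨fun a b ha hb => ?_⟩
  rw [derivedSeries_succ] at h
  have ha' : a ∈ derivedSeries H 1 := by rw [derivedSeries_one]; exact ha
  have hb' : b ∈ derivedSeries H 1 := by rw [derivedSeries_one]; exact hb
  have := Subgroup.commutator_mem_commutator ha' hb'
  rw [h, Subgroup.mem_bot] at this
  exact commutatorElement_eq_one_iff_mul_comm.1 this

/-- **Main lemma.** In a metabelian group every value `W(a₀,a₁,a₂)` is also of the form
`W(X₀, X₁, u(X) X₂)`. -/
theorem metab_main (h : derivedSeries H 2 = ⊥) (a : Fin 3 → H) (W : FreeGroup (Fin 3)) :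
    ∃ X : Fin 7 → H, FreeGroup.lift ![X 0, X 1, uw X * X 2] W = FreeGroup.lift a W := by
  have := metab_of_derived h
  exact (mkData H).main a W

end Pool.Agent.W861.VC
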